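import Pool.Agent.L5helper98.CQ.Base

/-!
Project CQ (MP_b09bc5_pr): the union bound over nonempty vertex sets.
-/

set_option autoImplicit false

namespace Pool.Agent.L5helper13.CQ

open Finset Pool.Agent.L5helper98.CQ
open scoped Classical

theorem union_S (n : ℕ) (hn : 2 ≤ n) (p : ℝ) (h0 : 0 ≤ p) (h1 : p ≤ 1) (P : Finset (Fin n) → Prop)
    (B : Finset (Fin n) → Om n → Prop)
    (h : ∀ S, P S → 1 ≤ S.card ∧ Pb p (B S) ≤ Real.exp (-(3 * (S.card : ℝ) * Real.log n))) :
    Pb p (fun ω => ∃ S, P S ∧ B S ω) ≤ 1 / n := by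
  have hn0 : (0 : ℝ) < n := by exact_mod_cast (by omega : 0 < n)
  have hn2 : (2 : ℝ) ≤ n := by exact_mod_cast hn
  set x : ℝ := Real.exp (-(3 * Real.log n)) with hx
  have hx0 : 0 ≤ x := (Real.exp_pos _).le
  have hxe : x = 1 / (n : ℝ) ^ 3 := by
    rw [hx, Real.exp_neg, show (3 : ℝ) * Real.log n = ((3 : ℕ) : ℝ) * Real.log n by norm_num, Real.exp_nat_mul,
      Real.exp_log hn0, one_div]
  have hpow : ∀ S : Finset (Fin n), Real.exp (-(3 * (S.card : ℝ) * Real.log n)) = x ^ S.card := by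
    intro S
    rw [hx, ← Real.exp_nat_mul]
    congr 1
    ring
  have e1 : Pb p (fun ω => ∃ S, P S ∧ B S ω) ≤ Pb p (fun ω => ∃ S ∈ univ.filter P, B S ω) := by
    apply Pb_mono h0 h1
    rintro ω ⟨S, hS, hB⟩
    exact ⟨S, by simp [hS], hB⟩
  have e2 := Pb_exists_mem (E := _) h0 h1 (univ.filter P) B
  have e3 : ∑ S ∈ univ.filter P, Pb p (B S) ≤ ∑ S ∈ (univ : Finset (Finset (Fin n))).erase ∅, x ^ S.card := by
    calc ∑ S ∈ univ.filter P, Pb p (B S) ≤ ∑ S ∈ univ.filter P, x ^ S.card := by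
          apply sum_le_sum
          intro S hS
          rw [mem_filter] at hS
          have := (h S hS.2).2
          rwa [hpow] at this
      _ ≤ _ := by
          apply sum_le_sum_of_subset_of_nonneg
          · intro S hS
            rw [mem_filter] at hS
            rw [mem_erase]
            refine ⟨?_, mem_univ _⟩
            rintro rfl
            have := (h ∅ hS.2).1
            simp at this
          · intro S _ _
            exact pow_nonneg hx0 _
  have e4 : ∑ S ∈ (univ : Finset (Finset (Fin n))).erase ∅, x ^ S.card = (1 + x) ^ n - 1 := by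
    have h5 := Fintype.sum_pow_mul_eq_add_pow (Fin n) x 1
    simp only [one_pow, mul_one, Fintype.card_fin] at h5
    rw [← add_sum_erase _ _ (mem_univ (∅ : Finset (Fin n)))] at h5
    simp only [card_empty, pow_zero] at h5
    rw [add_comm 1 x]
    linarith
  have e5 : (1 + x) ^ n ≤ Real.exp (1 / (n : ℝ) ^ 2) := by
    have h6 : (1 + x) ^ n ≤ (Real.exp x) ^ n := by
      apply pow_le_pow_left₀ (by linarith)
      have := Real.add_one_le_exp x
      linarith
    rw [← Real.exp_nat_mul] at h6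
    refine h6.trans (le_of_eq ?_)
    congr 1
    rw [hxe]
    field_simp
  have hu : (1 : ℝ) / (n : ℝ) ^ 2 ≤ 1 := by
    rw [div_le_one (by positivity)]
    nlinarith
  have hu0 : (0 : ℝ) ≤ 1 / (n : ℝ) ^ 2 := by positivity
  have e6 : Real.exp (1 / (n : ℝ) ^ 2) ≤ 1 + 2 * (1 / (n : ℝ) ^ 2) := by
    have h7 := Real.abs_exp_sub_one_le (x := 1 / (n : ℝ) ^ 2) (by rw [abs_of_nonneg hu0]; exact hu)
    rw [abs_of_nonneg hu0] at h7
    have h8 := le_abs_self (Real.exp (1 / (n : ℝ) ^ 2) - 1)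
    linarith
  have e7 : 2 * (1 / (n : ℝ) ^ 2) ≤ 1 / n := by
    rw [mul_one_div, div_le_div_iff₀ (by positivity) hn0]
    nlinarith
  calc Pb p (fun ω => ∃ S, P S ∧ B S ω) ≤ ∑ S ∈ univ.filter P, Pb p (B S) := e1.trans e2
    _ ≤ (1 + x) ^ n - 1 := by rw [← e4]; exact e3
    _ ≤ 1 / n := by linarith

end Pool.Agent.L5helper13.CQ
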